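import Pool.Agent.TH644.QT.F

set_option autoImplicit false

open Set Pool.Agent.Helper140.TT

namespace Pool.Agent.Results.MP_b71113_an.OrthantFormula

/-- The vanishing set `U(Ω, c)` in closed form for every product `Ω` of half-lines `(a_j, ∞)`
(the coordinates `j ∈ J`) and lines (the other coordinates), and, for a quadrant in the plane, with
hyperbolic sines. -/
theorem result :
    (∀ (n : ℕ) (J : Finset (Fin n)) (a c : Fin n → ℝ), (∀ j, 0 < c j) →
      U {x : Fin n → ℝ | ∀ j ∈ J, a j < x j} c =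
        {x : Fin n → ℝ | (∀ j ∈ J, a j < x j) ∧
          ∑ j ∈ J, Real.arctan (Real.exp (-(Real.pi / (2 * c j) * (x j - a j)))) <
            Real.pi / 4}) ∧
    (∀ a c : Fin 2 → ℝ, (∀ j, 0 < c j) →
      U {x : Fin 2 → ℝ | a 0 < x 0 ∧ a 1 < x 1} c =
        {x : Fin 2 → ℝ | (a 0 < x 0 ∧ a 1 < x 1) ∧
          1 < Real.sinh (Real.pi / (2 * c 0) * (x 0 - a 0)) *
            Real.sinh (Real.pi / (2 * c 1) * (x 1 - a 1))}) := by
  refine ⟨fun n J a c hc => Pool.Agent.TH644.QT.U_orthant J hc a, fun a c hc => ?_⟩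
  have h := Pool.Agent.TH644.QT.U_orthant Finset.univ hc a
  have h0 : {x : Fin 2 → ℝ | ∀ j ∈ (Finset.univ : Finset (Fin 2)), a j < x j} =
      {x : Fin 2 → ℝ | a 0 < x 0 ∧ a 1 < x 1} := by
    ext x
    simp [Fin.forall_fin_two]
  rw [h0] at h
  rw [h]
  ext x
  have hpi := Real.pi_pos
  have hc0 := hc 0
  have hc1 := hc 1
  constructor
  · rintro ⟨h1, h2⟩
    have h1' : a 0 < x 0 ∧ a 1 < x 1 := ⟨h1 0 (Finset.mem_univ _), h1 1 (Finset.mem_univ _)⟩
    refine ⟨h1', ?_⟩
    rw [Fin.sum_univ_two] at h2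
    refine (Pool.Agent.TH644.QT.arctan_sinh ?_ ?_).1 h2
    · have := sub_pos.2 h1'.1
      positivity
    · have := sub_pos.2 h1'.2
      positivity
  · rintro ⟨h1, h2⟩
    refine ⟨fun j _ => ?_, ?_⟩
    · fin_cases j
      · exact h1.1
      · exact h1.2
    · rw [Fin.sum_univ_two]
      refine (Pool.Agent.TH644.QT.arctan_sinh ?_ ?_).2 h2
      · have := sub_pos.2 h1.1
        positivity
      · have := sub_pos.2 h1.2
        positivity

end Pool.Agent.Results.MP_b71113_an.OrthantFormula
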